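import Mathlib

set_option autoImplicit false

/-!
# Free groups are residually free of rank three
-/

namespace Pool.Agent.Lib.MP_1b6260_al.AR

universe u

/-- the shift of the free generators -/
def shiftHom : Multiplicative ℤ →* MulAut (FreeGroup ℤ) where
  toFun n := FreeGroup.freeGroupCongr (Equiv.addLeft (Multiplicative.toAdd n))
  map_one' := by
    apply MulEquiv.toMonoidHom_injective
    apply FreeGroup.ext_hom
    intro i
    change FreeGroup.map _ (FreeGroup.of i) = FreeGroup.of i
    rw [FreeGroup.map.of]
    simp
  map_mul' a b := by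
    apply MulEquiv.toMonoidHom_injective
    apply FreeGroup.ext_hom
    intro i
    change FreeGroup.map _ (FreeGroup.of i) =
      FreeGroup.map _ (FreeGroup.map _ (FreeGroup.of i))
    rw [FreeGroup.map.of, FreeGroup.map.of, FreeGroup.map.of]
    simp

/-- the conjugates of the second generator by the powers of the first one -/
def emb : FreeGroup ℤ →* FreeGroup (Fin 3) :=
  FreeGroup.lift fun i => FreeGroup.of 0 ^ i * FreeGroup.of 1 * (FreeGroup.of 0 ^ i)⁻¹

/-- a map back -/
def back : FreeGroup (Fin 3) →* FreeGroup ℤ ⋊[shiftHom] Multiplicative ℤ :=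
  FreeGroup.lift ![SemidirectProduct.inr (Multiplicative.ofAdd 1),
    SemidirectProduct.inl (FreeGroup.of 0), 1]

theorem back_emb : back.comp emb = SemidirectProduct.inl := by
  apply FreeGroup.ext_hom
  intro i
  rw [MonoidHom.comp_apply]
  unfold emb
  rw [FreeGroup.lift_apply_of, map_mul, map_mul, map_inv, map_zpow]
  have h0 : back (FreeGroup.of 0) = SemidirectProduct.inr (Multiplicative.ofAdd 1) := by
    unfold back
    rw [FreeGroup.lift_apply_of]
    rfl
  have h1 : back (FreeGroup.of 1) = SemidirectProduct.inl (FreeGroup.of 0) := by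
    unfold back
    rw [FreeGroup.lift_apply_of]
    rfl
  rw [h0, h1, ← map_zpow, ← map_inv, ← SemidirectProduct.inl_aut]
  congr 1
  change FreeGroup.map _ (FreeGroup.of 0) = FreeGroup.of i
  rw [FreeGroup.map.of]
  simp

theorem emb_injective : Function.Injective emb := by
  have h : Function.Injective (back.comp emb) := by
    rw [back_emb]
    exact SemidirectProduct.inl_injective
  exact Function.Injective.of_comp h

/-- a map of the generators which is injective on the letters of a word -/
theorem exists_map {X : Type u} {g : FreeGroup X} (hg : g ≠ 1) :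
    ∃ e : X → ℤ, FreeGroup.map e g ≠ 1 := by
  classical
  let S : Finset X := (g.toWord.map Prod.fst).toFinset
  obtain ⟨e, he⟩ : ∃ e : X → ℤ, Set.InjOn e S := by
    let F := Fintype.equivFin S
    refine ⟨fun x => if h : x ∈ S then ((F ⟨x, h⟩ : ℕ) : ℤ) else 0, ?_⟩
    intro x hx y hy hxy
    have hx' : x ∈ S := hx
    have hy' : y ∈ S := hy
    simp only [hx', hy', dif_pos] at hxy
    have h1 : F ⟨x, hx'⟩ = F ⟨y, hy'⟩ := by
      apply Fin.ext
      exact_mod_cast hxy
    have h2 := F.injective h1
    exact congrArg Subtype.val h2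
  refine ⟨e, ?_⟩
  have hS : ∀ p ∈ g.toWord, p.1 ∈ (S : Set X) := by
    intro p hp
    have : p.1 ∈ S := List.mem_toFinset.mpr (List.mem_map.mpr ⟨p, hp, rfl⟩)
    exact this
  have hred : FreeGroup.IsReduced (g.toWord.map fun p => (e p.1, p.2)) := by
    have h1 : FreeGroup.IsReduced g.toWord := FreeGroup.isReduced_toWord
    unfold FreeGroup.IsReduced at h1 ⊢
    rw [List.isChain_map]
    have key : ∀ L : List (X × Bool), (∀ p ∈ L, p.1 ∈ (S : Set X)) →
        L.IsChain (fun a b => a.1 = b.1 → a.2 = b.2) →
        L.IsChain (fun a b => e a.1 = e b.1 → a.2 = b.2) := by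
      intro L
      induction L with
      | nil => intro _ _; exact List.isChain_nil
      | cons a L ih =>
        intro hm hc
        cases L with
        | nil => exact List.isChain_singleton a
        | cons b L =>
          rw [List.isChain_cons_cons] at hc ⊢
          refine ⟨fun h => hc.1 (he (hm a (by simp)) (hm b (by simp)) h), ?_⟩
          exact ih (fun p hp => hm p (List.mem_cons_of_mem a hp)) hc.2
    exact key _ hS h1
  intro h
  have h2 : FreeGroup.map e g = FreeGroup.mk (g.toWord.map fun p => (e p.1, p.2)) := by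
    conv_lhs => rw [← FreeGroup.mk_toWord (x := g)]
    rw [FreeGroup.map.mk]
  rw [h2] at h
  have h3 := congrArg FreeGroup.toWord h
  rw [FreeGroup.toWord_mk, hred.reduce_eq, FreeGroup.toWord_one, List.map_eq_nil_iff,
    FreeGroup.toWord_eq_nil_iff] at h3
  exact hg h3

/-- free groups are residually free of rank three -/
theorem residual {X : Type u} {g : FreeGroup X} (hg : g ≠ 1) :
    ∃ θ : FreeGroup X →* FreeGroup (Fin 3), θ g ≠ 1 := by
  obtain ⟨e, he⟩ := exists_map hg
  refine ⟨emb.comp (FreeGroup.map e), ?_⟩
  intro h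
  apply he
  apply emb_injective
  rw [map_one]
  exact h

end Pool.Agent.Lib.MP_1b6260_al.AR
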