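import Pool.Agent.Lib.MP_1b6260_al.Prt

set_option autoImplicit false

/-!
# Zorn's vector matrices (split octonions) over a commutative ring
-/

namespace Pool.Agent.Lib.MP_1b6260_al.AR

open Pool.Agent.Lib.MP_20522e_al

universe u v

/-- the scalar product -/
def dt {R : Type u} [CommRing R] (x y : Fin 3 → R) : R := x 0 * y 0 + x 1 * y 1 + x 2 * y 2

/-- the vector product -/
def cr {R : Type u} [CommRing R] (x y : Fin 3 → R) : Fin 3 → R :=
  ![x 1 * y 2 - x 2 * y 1, x 2 * y 0 - x 0 * y 2, x 0 * y 1 - x 1 * y 0]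

/-- Zorn's vector matrices with scalars `a`, `b` on the diagonal and vectors `u` (right above)
and `v` (left below): the split octonions over `R`. -/
@[ext] structure Zorn (R : Type u) where
  /-- first diagonal entry -/
  a : R
  /-- second diagonal entry -/
  b : R
  /-- vector in the right upper corner -/
  u : Fin 3 → R
  /-- vector in the left lower corner -/
  v : Fin 3 → R

namespace Zorn

variable {R : Type u} [CommRing R]

instance : Zero (Zorn R) := ⟨⟨0, 0, 0, 0⟩⟩
instance : One (Zorn R) := ⟨⟨1, 1, 0, 0⟩⟩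
instance : Add (Zorn R) := ⟨fun x y => ⟨x.a + y.a, x.b + y.b, x.u + y.u, x.v + y.v⟩⟩
instance : Neg (Zorn R) := ⟨fun x => ⟨-x.a, -x.b, -x.u, -x.v⟩⟩

/-- The product of Zorn:
`(a, u; v, b) (a', u'; v', b') =
  (a a' + u·v', a u' + b' u - v × v'; a' v + b v' + u × u', b b' + v·u')`. -/
instance : Mul (Zorn R) := ⟨fun x y =>
  ⟨x.a * y.a + dt x.u y.v, x.b * y.b + dt x.v y.u,
    x.a • y.u + y.b • x.u - cr x.v y.v, y.a • x.v + x.b • y.v + cr x.u y.u⟩⟩

theorem zero_def : (0 : Zorn R) = ⟨0, 0, 0, 0⟩ := rfl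
theorem one_def : (1 : Zorn R) = ⟨1, 1, 0, 0⟩ := rfl
theorem add_def (x y : Zorn R) : x + y = ⟨x.a + y.a, x.b + y.b, x.u + y.u, x.v + y.v⟩ := rfl
theorem neg_def (x : Zorn R) : -x = ⟨-x.a, -x.b, -x.u, -x.v⟩ := rfl
theorem mul_def (x y : Zorn R) : x * y =
  ⟨x.a * y.a + dt x.u y.v, x.b * y.b + dt x.v y.u,
    x.a • y.u + y.b • x.u - cr x.v y.v, y.a • x.v + x.b • y.v + cr x.u y.u⟩ := rfl

omit [CommRing R] in
theorem ext8 {x y : Zorn R} (ha : x.a = y.a) (hb : x.b = y.b) (h0 : x.u 0 = y.u 0)
    (h1 : x.u 1 = y.u 1) (h2 : x.u 2 = y.u 2) (h3 : x.v 0 = y.v 0) (h4 : x.v 1 = y.v 1)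
    (h5 : x.v 2 = y.v 2) : x = y := by
  apply Zorn.ext ha hb
  · funext i
    fin_cases i
    · exact h0
    · exact h1
    · exact h2
  · funext i
    fin_cases i
    · exact h3
    · exact h4
    · exact h5

theorem cr0 (x y : Fin 3 → R) : cr x y 0 = x 1 * y 2 - x 2 * y 1 := rfl
theorem cr1 (x y : Fin 3 → R) : cr x y 1 = x 2 * y 0 - x 0 * y 2 := rfl
theorem cr2 (x y : Fin 3 → R) : cr x y 2 = x 0 * y 1 - x 1 * y 0 := rfl

instance instAddCommGroup : AddCommGroup (Zorn R) where
  add_assoc x y z := by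
    simp only [add_def]
    apply ext8 <;> simp only [Pi.add_apply] <;> ring
  zero_add x := by
    simp only [add_def, zero_def]
    apply ext8 <;> simp only [Pi.add_apply, Pi.zero_apply] <;> ring
  add_zero x := by
    simp only [add_def, zero_def]
    apply ext8 <;> simp only [Pi.add_apply, Pi.zero_apply] <;> ring
  nsmul := nsmulRec
  zsmul := zsmulRec
  neg_add_cancel x := by
    simp only [add_def, zero_def, neg_def]
    apply ext8 <;> simp only [Pi.add_apply, Pi.zero_apply, Pi.neg_apply] <;> ring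
  add_comm x y := by
    simp only [add_def]
    apply ext8 <;> simp only [Pi.add_apply] <;> ring

instance instNonAssocRing : NonAssocRing (Zorn R) where
  __ := instAddCommGroup
  left_distrib x y z := by
    simp only [add_def, mul_def, dt]
    apply ext8 <;> simp only [Pi.add_apply, Pi.sub_apply, Pi.smul_apply, smul_eq_mul, cr0, cr1,
      cr2] <;> ring
  right_distrib x y z := by
    simp only [add_def, mul_def, dt]
    apply ext8 <;> simp only [Pi.add_apply, Pi.sub_apply, Pi.smul_apply, smul_eq_mul, cr0, cr1,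
      cr2] <;> ring
  zero_mul x := by
    simp only [zero_def, mul_def, dt]
    apply ext8 <;> simp only [Pi.add_apply, Pi.sub_apply, Pi.smul_apply, Pi.zero_apply,
      smul_eq_mul, cr0, cr1, cr2] <;> ring
  mul_zero x := by
    simp only [zero_def, mul_def, dt]
    apply ext8 <;> simp only [Pi.add_apply, Pi.sub_apply, Pi.smul_apply, Pi.zero_apply,
      smul_eq_mul, cr0, cr1, cr2] <;> ring
  one_mul x := by
    simp only [one_def, mul_def, dt]
    apply ext8 <;> simp only [Pi.add_apply, Pi.sub_apply, Pi.smul_apply, Pi.zero_apply,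
      smul_eq_mul, cr0, cr1, cr2] <;> ring
  mul_one x := by
    simp only [one_def, mul_def, dt]
    apply ext8 <;> simp only [Pi.add_apply, Pi.sub_apply, Pi.smul_apply, Pi.zero_apply,
      smul_eq_mul, cr0, cr1, cr2] <;> ring

instance instAltRing : AltRing (Zorn R) where
  left_alt x y := by
    simp only [mul_def, dt]
    apply ext8 <;> simp only [Pi.add_apply, Pi.sub_apply, Pi.smul_apply, smul_eq_mul, cr0, cr1,
      cr2] <;> ring
  right_alt x y := by
    simp only [mul_def, dt]
    apply ext8 <;> simp only [Pi.add_apply, Pi.sub_apply, Pi.smul_apply, smul_eq_mul, cr0, cr1,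
      cr2] <;> ring

/-- the norm -/
def zn (x : Zorn R) : R := x.a * x.b - dt x.u x.v

theorem zn_mul (x y : Zorn R) : zn (x * y) = zn x * zn y := by
  simp only [zn, mul_def, dt, Pi.add_apply, Pi.sub_apply, Pi.smul_apply, smul_eq_mul, cr0, cr1,
    cr2]
  ring

theorem zn_one : zn (1 : Zorn R) = 1 := by
  simp [zn, one_def, dt]

theorem inv_of_zn (x : Zorn R) (h : IsUnit (zn x)) : ∃ y : Zorn R, x * y = 1 ∧ y * x = 1 := by
  obtain ⟨w, hw⟩ := h.exists_right_inv
  unfold zn dt at hw
  refine ⟨⟨w * x.b, w * x.a, -(w • x.u), -(w • x.v)⟩, ?_, ?_⟩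
  · simp only [one_def, mul_def, dt]
    apply ext8 <;> simp only [Pi.add_apply, Pi.sub_apply, Pi.smul_apply, Pi.zero_apply,
      Pi.neg_apply, smul_eq_mul, cr0, cr1, cr2]
    · linear_combination hw
    · linear_combination hw
    all_goals ring
  · simp only [one_def, mul_def, dt]
    apply ext8 <;> simp only [Pi.add_apply, Pi.sub_apply, Pi.smul_apply, Pi.zero_apply,
      Pi.neg_apply, smul_eq_mul, cr0, cr1, cr2]
    · linear_combination hw
    · linear_combination hw
    all_goals ring

theorem IV_of_zn (x : Zorn R) (h : IsUnit (zn x)) : IV x := ⟨inv_of_zn x h⟩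

theorem zn_unit_of_IV (x : Zorn R) [IV x] : IsUnit (zn x) := by
  have e := congrArg zn (mul_iv x)
  rw [zn_mul, zn_one] at e
  exact IsUnit.of_mul_eq_one _ e

end Zorn

open Zorn

section zmap
variable {R : Type u} {S : Type v} [CommRing R] [CommRing S] (f : R →+* S)

/-- change of rings -/
def zmap : Zorn R →+* Zorn S where
  toFun x := ⟨f x.a, f x.b, fun i => f (x.u i), fun i => f (x.v i)⟩
  map_zero' := by
    simp only [zero_def]
    apply ext8 <;> simp
  map_one' := by
    simp only [one_def]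
    apply ext8 <;> simp
  map_add' x y := by
    simp only [add_def]
    apply ext8 <;> simp
  map_mul' x y := by
    simp only [mul_def, dt]
    apply ext8 <;> simp only [Pi.add_apply, Pi.sub_apply, Pi.smul_apply, smul_eq_mul, cr0, cr1,
      cr2, map_add, map_sub, map_mul]

theorem zn_zmap (x : Zorn R) : zn (zmap f x) = f (zn x) := by
  simp only [zn, dt, zmap, RingHom.coe_mk, MonoidHom.coe_mk, OneHom.coe_mk, map_add, map_sub,
    map_mul]

theorem zmap_injective (hf : Function.Injective f) : Function.Injective (zmap f) := by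
  intro x y h
  apply ext8
  · exact hf (congrArg Zorn.a h)
  · exact hf (congrArg Zorn.b h)
  · exact hf (congrFun (congrArg Zorn.u h) 0)
  · exact hf (congrFun (congrArg Zorn.u h) 1)
  · exact hf (congrFun (congrArg Zorn.u h) 2)
  · exact hf (congrFun (congrArg Zorn.v h) 0)
  · exact hf (congrFun (congrArg Zorn.v h) 1)
  · exact hf (congrFun (congrArg Zorn.v h) 2)

end zmap

section j
variable {R : Type u} [CommRing R]

/-- the map from the octonions with parameters `1, 1, 1` -/
def jj : Oct R 1 1 1 →+* Zorn R where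
  toFun c := ⟨c.c0 + c.c1, c.c0 - c.c1, ![c.c2 + c.c3, c.c4 + c.c5, -c.c6 + c.c7],
    ![c.c2 - c.c3, c.c4 - c.c5, c.c6 + c.c7]⟩
  map_zero' := by
    simp only [zero_def, Oct.zero_def]
    apply ext8 <;> simp
  map_one' := by
    simp only [one_def, Oct.one_def]
    apply ext8 <;> simp
  map_add' x y := by
    simp only [add_def, Oct.add_def]
    apply ext8 <;> simp <;> ring
  map_mul' x y := by
    simp only [mul_def, dt, Oct.mul_def]
    apply ext8 <;> simp only [Pi.add_apply, Pi.sub_apply, Pi.smul_apply, smul_eq_mul, cr0, cr1,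
      cr2, Matrix.cons_val_zero, Matrix.cons_val_one, Matrix.cons_val] <;> ring

theorem zn_jj (c : Oct R 1 1 1) : zn (jj c) = nm c := by
  simp only [zn, dt, jj, nm, RingHom.coe_mk, MonoidHom.coe_mk, OneHom.coe_mk,
    Matrix.cons_val_zero, Matrix.cons_val_one, Matrix.cons_val]
  ring

theorem jj_injective (h2 : ∀ x : R, 2 * x = 0 → x = 0) : Function.Injective (jj (R := R)) := by
  rw [injective_iff_map_eq_zero]
  intro c hc
  have e1 := congrArg Zorn.a hc
  have e2 := congrArg Zorn.b hc
  have e3 := congrFun (congrArg Zorn.u hc) 0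
  have e4 := congrFun (congrArg Zorn.u hc) 1
  have e5 := congrFun (congrArg Zorn.u hc) 2
  have e6 := congrFun (congrArg Zorn.v hc) 0
  have e7 := congrFun (congrArg Zorn.v hc) 1
  have e8 := congrFun (congrArg Zorn.v hc) 2
  simp only [jj, RingHom.coe_mk, MonoidHom.coe_mk, OneHom.coe_mk, zero_def, Pi.zero_apply,
    Matrix.cons_val_zero, Matrix.cons_val_one, Matrix.cons_val] at e1 e2 e3 e4 e5 e6 e7 e8
  rw [Oct.zero_def]
  ext
  · exact h2 _ (by linear_combination e1 + e2)
  · exact h2 _ (by linear_combination e1 - e2)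
  · exact h2 _ (by linear_combination e3 + e6)
  · exact h2 _ (by linear_combination e3 - e6)
  · exact h2 _ (by linear_combination e4 + e7)
  · exact h2 _ (by linear_combination e4 - e7)
  · exact h2 _ (by linear_combination e8 - e5)
  · exact h2 _ (by linear_combination e8 + e5)

theorem jj_surjective {h : R} (h2 : 2 * h = 1) : Function.Surjective (jj (R := R)) := by
  intro x
  refine ⟨⟨h * (x.a + x.b), h * (x.a - x.b), h * (x.u 0 + x.v 0), h * (x.u 0 - x.v 0),
    h * (x.u 1 + x.v 1), h * (x.u 1 - x.v 1), h * (x.v 2 - x.u 2), h * (x.u 2 + x.v 2)⟩, ?_⟩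
  apply ext8 <;> simp only [jj, RingHom.coe_mk, MonoidHom.coe_mk, OneHom.coe_mk,
    Matrix.cons_val_zero, Matrix.cons_val_one, Matrix.cons_val]
  · linear_combination x.a * h2
  · linear_combination x.b * h2
  · linear_combination x.u 0 * h2
  · linear_combination x.u 1 * h2
  · linear_combination x.u 2 * h2
  · linear_combination x.v 0 * h2
  · linear_combination x.v 1 * h2
  · linear_combination x.v 2 * h2

end j

end Pool.Agent.Lib.MP_1b6260_al.AR
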