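import Pool.Agent.Lib.MP_1b6260_al.AR.FGR
import Pool.Agent.Lib.MP_1b6260_al.AR.Zorn
import Pool.Agent.Lib.MP_1b6260_al.Fnl

set_option autoImplicit false

/-!
# Words which are nuclear in the octonion loops are trivial in the free group
-/

namespace Pool.Agent.Lib.MP_1b6260_al.AR

open Pool.Agent.Lib.MP_20522e_al
open Quaternion

universe u v

/-- The element `w` of the free Moufang loop is nuclear in all octonion loops: its image under
every homomorphism into the invertible elements of Zorn's vector matrices over a commutative ring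
associates with all pairs of elements of the image, in every position. -/
def IsOctonionNuclear {X : Type u} (w : FreeMoufang X) : Prop :=
  ∀ (R : Type u) [CommRing R] (χ : FreeMoufang X → Zorn R), IsMulHom χ →
    ∀ a b : FreeMoufang X, (χ w * χ a) * χ b = χ w * (χ a * χ b) ∧
      (χ a * χ w) * χ b = χ a * (χ w * χ b) ∧ (χ a * χ b) * χ w = χ a * (χ b * χ w)

theorem omap_id_injective {R : Type u} [CommRing R] {p q r p' q' r' : R} (hp : p = p')
    (hq : q = q') (hr : r = r') :
    Function.Injective (omap (RingHom.id R) hp hq hr : Oct R p q r →+* Oct R p' q' r') := by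
  intro x y h
  apply co_ext
  intro i
  have := congrArg (co i) h
  rwa [co_omap, co_omap] at this

theorem three_elements {X : Type u} (hX : 3 ≤ Cardinal.mk X) :
    ∃ g : Fin 3 → X, Function.Injective g := by
  have h : Cardinal.lift.{u} (Cardinal.mk (Fin 3)) ≤ Cardinal.lift.{0} (Cardinal.mk X) := by
    simpa using hX
  obtain ⟨g⟩ := Cardinal.lift_mk_le'.mp h
  exact ⟨g, g.injective⟩

/-- the values of a nuclear word in the octonions with parameters `1, 1, 1` are scalars -/
theorem scalar_of_oct {X : Type u} (hX : 3 ≤ Cardinal.mk X) {K : Type u} [CommRing K] [IsDomain K]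
    (h2 : (2 : K) ≠ 0) (f : X → UL (Oct K 1 1 1)) {w : FreeMoufang X}
    (hw : IsOctonionNuclear w) :
    ∃ c : K, (FreeMoufang.lift f w).1 = ⟨c, 0, 0, 0, 0, 0, 0, 0⟩ := by
  obtain ⟨g, hg⟩ := three_elements hX
  refine scalar_of_nuclear (x1 := g 0) (x2 := g 1) (x3 := g 2)
    (hg.ne (by decide)) (hg.ne (by decide)) (hg.ne (by decide)) one_ne_zero one_ne_zero h2 f w ?_
  intro χ χ1 χm a b
  have e : toPS K (Polynomial.C 1) = 1 := by simp
  let m : OS K 1 1 1 →+* Zorn (PowerSeries K) :=
    (jj (R := PowerSeries K)).comp (omap (RingHom.id _) e e e)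
  have h2' : (2 : PowerSeries K) ≠ 0 := by
    intro h
    apply h2
    have := congrArg (PowerSeries.constantCoeff (R := K)) h
    rwa [map_ofNat, map_zero] at this
  have hm : Function.Injective m := by
    have hj : Function.Injective (jj (R := PowerSeries K)) :=
      jj_injective fun x hx => (mul_eq_zero.mp hx).resolve_left h2'
    exact hj.comp (omap_id_injective e e e)
  have h := (hw (PowerSeries K) (fun t => m (χ t)) ⟨by simp only [χ1, map_one], fun a b => by
    simp only [χm, map_mul]⟩ a b).1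
  simp only [← map_mul] at h
  exact hm h

/-- the map to the free group -/
def PiX {X : Type u} (w : FreeMoufang X) : FreeGroup X :=
  letI := groupLoop (FreeGroup X)
  FreeMoufang.lift FreeGroup.of w

theorem PiX_one {X : Type u} : PiX (1 : FreeMoufang X) = 1 := rfl
theorem PiX_mul {X : Type u} (a b : FreeMoufang X) : PiX (a * b) = PiX a * PiX b := by
  let _ := groupLoop (FreeGroup X)
  exact FreeMoufang.lift_mul FreeGroup.of a b
theorem PiX_of {X : Type u} (x : X) : PiX (FreeMoufang.of x) = FreeGroup.of x := rfl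

section iota
variable {K : Type v} [Field K] [CharZero K] (I : K) (hI : I * I = -1)

/-- the rational quaternions in the octonions over a field which contains a square root of
`-1` -/
noncomputable def iota : ℍ[ℚ] →+* Oct K 1 1 1 where
  toFun q := ⟨(q.re : K), I * (q.imI : K), I * (q.imJ : K), -(q.imK : K), 0, 0, 0, 0⟩
  map_zero' := by
    rw [Oct.zero_def]
    ext <;> simp
  map_one' := by
    rw [Oct.one_def]
    ext <;> simp
  map_add' x y := by
    rw [Oct.add_def]
    ext <;> simp <;> ring
  map_mul' x y := by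
    rw [Oct.mul_def]
    ext
    · simp only [Quaternion.re_mul, Rat.cast_sub, Rat.cast_mul]
      linear_combination (-(x.imI : K) * y.imI - (x.imJ : K) * y.imJ) * hI
    · simp only [Quaternion.imI_mul, Rat.cast_sub, Rat.cast_mul, Rat.cast_add]
      ring
    · simp only [Quaternion.imJ_mul, Rat.cast_sub, Rat.cast_mul, Rat.cast_add]
      ring
    · simp only [Quaternion.imK_mul, Rat.cast_sub, Rat.cast_mul, Rat.cast_add]
      linear_combination (-(x.imI : K) * y.imJ + (x.imJ : K) * y.imI) * hI
    all_goals ring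

end iota

/-- a word which is nuclear in the octonion loops is trivial in the free group -/
theorem PiX_eq_one {X : Type u} (hX : 3 ≤ Cardinal.mk X) {w : FreeMoufang X}
    (hw : IsOctonionNuclear w) : PiX w = 1 := by
  by_contra hne
  obtain ⟨θ, hθ⟩ := residual hne
  have hCZ : CharZero (ULift.{u} ℂ) := ⟨fun a b h => by
    have := congrArg ULift.down h
    simpa using this⟩
  let I : ULift.{u} ℂ := ULift.up Complex.I
  have hI : I * I = -1 := by
    apply ULift.ext
    exact Complex.I_mul_I
  have hI0 : I ≠ 0 := by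
    intro h
    rw [h, zero_mul] at hI
    have h1 : (1 : ULift.{u} ℂ) = 0 := by linear_combination hI
    exact one_ne_zero h1
  let um : X → (ℍ[ℚ])ˣ := fun x => FreeGroup.lift qu (θ (FreeGroup.of x))
  let f : X → UL (Oct (ULift.{u} ℂ) 1 1 1) := fun x =>
    ⟨iota I hI (um x : ℍ[ℚ]), ⟨iota I hI (((um x)⁻¹ : (ℍ[ℚ])ˣ) : ℍ[ℚ]), by
      rw [← map_mul, Units.mul_inv, map_one], by rw [← map_mul, Units.inv_mul, map_one]⟩⟩
  obtain ⟨c, hc⟩ := scalar_of_oct hX two_ne_zero f hw
  have key : (FreeMoufang.lift f w).1 =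
      iota I hI ((FreeGroup.lift qu (θ (PiX w)) : (ℍ[ℚ])ˣ) : ℍ[ℚ]) := by
    refine hom_unique_alt (f := fun w => (FreeMoufang.lift f w).1)
      (g := fun w => iota I hI ((FreeGroup.lift qu (θ (PiX w)) : (ℍ[ℚ])ˣ) : ℍ[ℚ]))
      rfl ?_ ?_ ?_ ?_ w
    · intro a b
      rw [FreeMoufang.lift_mul]; rfl
    · change iota I hI ((FreeGroup.lift qu (θ (PiX 1)) : (ℍ[ℚ])ˣ) : ℍ[ℚ]) = 1
      rw [PiX_one, map_one, map_one, Units.val_one, map_one]
    · intro a b
      change iota I hI ((FreeGroup.lift qu (θ (PiX (a * b))) : (ℍ[ℚ])ˣ) : ℍ[ℚ]) = _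
      rw [PiX_mul, map_mul, map_mul, Units.val_mul, map_mul]
    · intro x
      rfl
  rw [key] at hc
  set q : ℍ[ℚ] := ((FreeGroup.lift qu (θ (PiX w)) : (ℍ[ℚ])ˣ) : ℍ[ℚ]) with hq
  have e1 : I * (q.imI : ULift.{u} ℂ) = 0 := congrArg Oct.c1 hc
  have e2 : I * (q.imJ : ULift.{u} ℂ) = 0 := congrArg Oct.c2 hc
  have e3 : -(q.imK : ULift.{u} ℂ) = 0 := congrArg Oct.c3 hc
  have e1' : q.imI = 0 := by
    have := (mul_eq_zero.mp e1).resolve_left hI0
    exact_mod_cast this
  have e2' : q.imJ = 0 := by
    have := (mul_eq_zero.mp e2).resolve_left hI0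
    exact_mod_cast this
  have e3' : q.imK = 0 := by
    have := neg_eq_zero.mp e3
    exact_mod_cast this
  apply hθ
  apply free_mod_scalars (θ (PiX w)) q.re
  rw [← hq]
  apply Quaternion.ext
  · rfl
  · exact e1'
  · exact e2'
  · exact e3'

end Pool.Agent.Lib.MP_1b6260_al.AR
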