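import Pool.Agent.Lib.MP_1b6260_al.AR.Pit

set_option autoImplicit false

/-!
# The generic vector matrices
-/

namespace Pool.Agent.Lib.MP_1b6260_al.AR

open Pool.Agent.Lib.MP_20522e_al
open Zorn

universe u v

/-- polynomials in the coordinates of the generic vector matrices -/
abbrev MP (X : Type u) : Type u := MvPolynomial (X × Fin 8) ℤ

/-- the generic vector matrices -/
noncomputable def gen {X : Type u} (x : X) : Zorn (MP X) :=
  ⟨MvPolynomial.X (x, 0), MvPolynomial.X (x, 1),
    ![MvPolynomial.X (x, 2), MvPolynomial.X (x, 3), MvPolynomial.X (x, 4)],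
    ![MvPolynomial.X (x, 5), MvPolynomial.X (x, 6), MvPolynomial.X (x, 7)]⟩

/-- the coordinates of a vector matrix -/
def zc {R : Type v} (z : Zorn R) : Fin 8 → R :=
  ![z.a, z.b, z.u 0, z.u 1, z.u 2, z.v 0, z.v 1, z.v 2]

section ev
variable {X : Type u} {R : Type v} [CommRing R] (f : X → Zorn R)

/-- evaluation of polynomials -/
noncomputable def ev : MP X →+* R :=
  MvPolynomial.eval₂Hom (Int.castRingHom R) (fun p => zc (f p.1) p.2)

theorem ev_X (p : X × Fin 8) : ev f (MvPolynomial.X p) = zc (f p.1) p.2 := by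
  unfold ev
  rw [MvPolynomial.eval₂Hom_X']

theorem ev_gen (x : X) : zmap (ev f) (gen x) = f x := by
  apply ext8
  · exact ev_X f (x, 0)
  · exact ev_X f (x, 1)
  · exact ev_X f (x, 2)
  · exact ev_X f (x, 3)
  · exact ev_X f (x, 4)
  · exact ev_X f (x, 5)
  · exact ev_X f (x, 6)
  · exact ev_X f (x, 7)

/-- the products of norms of generic vector matrices -/
noncomputable def nrms (X : Type u) : Submonoid (MP X) :=
  Submonoid.closure (Set.range fun x : X => zn (gen x))

variable (hf : ∀ x, IsUnit (zn (f x)))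
include hf

theorem ev_unit {s : MP X} (hs : s ∈ nrms X) : IsUnit (ev f s) := by
  have h : nrms X ≤ (IsUnit.submonoid R).comap (ev f) := by
    unfold nrms
    rw [Submonoid.closure_le]
    rintro _ ⟨x, rfl⟩
    change IsUnit (ev f (zn (gen x)))
    rw [← zn_zmap, ev_gen]
    exact hf x
  exact h hs

end ev

theorem nrms_le (X : Type u) : nrms X ≤ nonZeroDivisors (MP X) := by
  intro s hs
  rw [mem_nonZeroDivisors_iff_ne_zero]
  intro h
  have h1 := ev_unit (R := ℤ) (fun _ : X => (1 : Zorn ℤ)) (fun _ => by rw [zn_one]; exact isUnit_one) hs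
  rw [h, map_zero] at h1
  exact not_isUnit_zero h1

/-- the generic ring -/
abbrev UR (X : Type u) : Type u := Localization (nrms X)

instance instDomUR (X : Type u) : IsDomain (UR X) :=
  IsLocalization.isDomain_localization (nrms_le X)

section evU
variable {X : Type u} {R : Type v} [CommRing R] (f : X → Zorn R)
  (hf : ∀ x, IsUnit (zn (f x)))

/-- evaluation of fractions -/
noncomputable def evU : UR X →+* R :=
  IsLocalization.lift (M := nrms X) (g := ev f) (fun s => ev_unit f hf s.2)

/-- the generic elements -/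
noncomputable def ug (x : X) : Zorn (UR X) := zmap (algebraMap (MP X) (UR X)) (gen x)

theorem zmap_zmap {R' : Type*} {S T : Type*} [CommRing R'] [CommRing S] [CommRing T]
    (g : R' →+* S) (h : S →+* T) (z : Zorn R') : zmap h (zmap g z) = zmap (h.comp g) z := rfl

theorem evU_ug (x : X) : zmap (evU f hf) (ug x) = f x := by
  unfold ug
  rw [zmap_zmap]
  have h : (evU f hf).comp (algebraMap (MP X) (UR X)) = ev f := by
    unfold evU
    exact IsLocalization.lift_comp _
  rw [h, ev_gen]

theorem zn_ug (x : X) : IsUnit (zn (ug x)) := by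
  unfold ug
  rw [zn_zmap]
  exact IsLocalization.map_units (UR X)
    (⟨zn (gen x), Submonoid.subset_closure ⟨x, rfl⟩⟩ : nrms X)

/-- the generic elements as units -/
noncomputable def ugU (x : X) : UL (Zorn (UR X)) := ⟨ug x, IV_of_zn _ (zn_ug x)⟩

end evU

theorem two_ne_UR (X : Type u) : (2 : UR X) ≠ 0 := by
  intro h
  have h1 := congrArg (evU (R := ℤ) (fun _ : X => (1 : Zorn ℤ))
    (fun _ => by rw [zn_one]; exact isUnit_one)) h
  rw [map_ofNat, map_zero] at h1
  norm_num at h1

theorem two_ne_KR (X : Type u) : (2 : FractionRing (UR X)) ≠ 0 := by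
  intro h
  apply two_ne_UR X
  apply IsFractionRing.injective (UR X) (FractionRing (UR X))
  rw [map_ofNat, map_zero]
  exact h

/-- the norm of the value of a word which is trivial in the free group is one -/
theorem nm_lift {X : Type u} {K : Type v} [CommRing K] (f : X → UL (Oct K 1 1 1))
    {w : FreeMoufang X} (hw : PiX w = 1) : nm (FreeMoufang.lift f w).1 = 1 := by
  have hu : ∀ a : FreeMoufang X, IsUnit (nm (FreeMoufang.lift f a).1) := fun a => by
    have := (FreeMoufang.lift f a).2
    exact nm_unit_of_IV _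
  let g : FreeMoufang X → Kˣ := fun a => (hu a).unit
  let h : FreeGroup X →* Kˣ := FreeGroup.lift (fun i => g (FreeMoufang.of i))
  have key : g w = h (PiX w) := by
    refine hom_unique (f := g) (g := fun a => h (PiX a)) ?_ ?_ ?_ ?_ ?_ w
    · apply Units.ext
      change nm (FreeMoufang.lift f 1).1 = 1
      rw [FreeMoufang.lift_one]
      exact nm_one
    · intro a b
      apply Units.ext
      change nm (FreeMoufang.lift f (a * b)).1 =
        nm (FreeMoufang.lift f a).1 * nm (FreeMoufang.lift f b).1
      rw [FreeMoufang.lift_mul, ← nm_mul]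
      rfl
    · rw [PiX_one, map_one]
    · intro a b
      rw [PiX_mul, map_mul]
    · intro i
      rw [PiX_of, FreeGroup.lift_apply_of]
  rw [hw, map_one] at key
  exact congrArg Units.val key

/-- the generic value of a nuclear word is one -/
theorem generic_eq_one {X : Type u} (hX : 3 ≤ Cardinal.mk X) {w : FreeMoufang X}
    (hw : IsOctonionNuclear w) : (FreeMoufang.lift (ugU (X := X)) w).1 = 1 := by
  have hPi := PiX_eq_one hX hw
  let K := FractionRing (UR X)
  let ζ : Zorn (UR X) →+* Zorn K := zmap (algebraMap (UR X) K)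
  have hζ : Function.Injective ζ := zmap_injective _ (IsFractionRing.injective (UR X) K)
  have h2 : (2 : K) ≠ 0 := two_ne_KR X
  have hsur := jj_surjective (R := K) (h := 2⁻¹) (mul_inv_cancel₀ h2)
  choose h hh using fun x : X => hsur (ζ (ug x))
  have hIV : ∀ x, IV (h x) := by
    intro x
    apply IV_of_nm
    rw [← zn_jj, hh]
    change IsUnit (zn (zmap _ _))
    rw [zn_zmap]
    exact (zn_ug x).map _
  let hU : X → UL (Oct K 1 1 1) := fun x => ⟨h x, hIV x⟩
  obtain ⟨c, hc⟩ := scalar_of_oct hX h2 hU hw
  have hn := nm_lift hU hPi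
  rw [hc] at hn
  have hcc : c * c = 1 := by
    unfold nm at hn
    linear_combination hn
  have key : jj (FreeMoufang.lift hU w).1 = ζ (FreeMoufang.lift (ugU (X := X)) w).1 := by
    refine hom_unique_alt (f := fun w => jj (FreeMoufang.lift hU w).1)
      (g := fun w => ζ (FreeMoufang.lift (ugU (X := X)) w).1) ?_ ?_ ?_ ?_ ?_ w
    · change jj (1 : Oct K 1 1 1) = 1
      rw [map_one]
    · intro a b
      rw [FreeMoufang.lift_mul]
      change jj ((FreeMoufang.lift hU a).1 * (FreeMoufang.lift hU b).1) = _
      rw [map_mul]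
    · change ζ (1 : Zorn (UR X)) = 1
      rw [map_one]
    · intro a b
      rw [FreeMoufang.lift_mul]
      change ζ ((FreeMoufang.lift (ugU (X := X)) a).1 * (FreeMoufang.lift (ugU (X := X)) b).1) = _
      rw [map_mul]
    · intro x
      exact hh x
  rw [hc] at key
  have h3 : (c - 1) * (c + 1) = 0 := by linear_combination hcc
  rcases mul_eq_zero.mp h3 with h4 | h4
  · have h5 : c = 1 := sub_eq_zero.mp h4
    apply hζ
    rw [← key, h5, map_one]
    exact map_one jj
  · exfalso
    have h5 : c = -1 := eq_neg_of_add_eq_zero_left h4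
    have h6 : (FreeMoufang.lift (ugU (X := X)) w).1 = -1 := by
      apply hζ
      rw [← key, h5, map_neg, map_one]
      have e : (⟨-1, 0, 0, 0, 0, 0, 0, 0⟩ : Oct K 1 1 1) = -1 := by
        rw [Oct.neg_def, Oct.one_def]
        simp
      rw [e, map_neg, map_one]
    let ε := evU (R := ℤ) (fun _ : X => (1 : Zorn ℤ))
      (fun _ => by rw [zn_one]; exact isUnit_one)
    have h7 : zmap ε (FreeMoufang.lift (ugU (X := X)) w).1 = 1 := by
      refine hom_unique_alt (f := fun w => zmap ε (FreeMoufang.lift (ugU (X := X)) w).1)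
        (g := fun _ => (1 : Zorn ℤ)) ?_ ?_ rfl ?_ ?_ w
      · change zmap ε (1 : Zorn (UR X)) = 1
        rw [map_one]
      · intro a b
        rw [FreeMoufang.lift_mul]
        change zmap ε ((FreeMoufang.lift (ugU (X := X)) a).1 *
          (FreeMoufang.lift (ugU (X := X)) b).1) = _
        rw [map_mul]
      · intro a b
        rw [mul_one]
      · intro x
        exact evU_ug _ _ x
    rw [h6, map_neg, map_one] at h7
    have h8 := congrArg Zorn.a h7
    change (-1 : ℤ) = 1 at h8
    norm_num at h8

/-- a nuclear word is trivial in all octonion loops -/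
theorem zorn_eq_one {X : Type u} (hX : 3 ≤ Cardinal.mk X) {w : FreeMoufang X}
    (hw : IsOctonionNuclear w) {R : Type v} [CommRing R] {φ : FreeMoufang X → Zorn R}
    (hφ : IsMulHom φ) : φ w = 1 := by
  have hIV : ∀ a, IV (φ a) := hom_IV hφ.1 hφ.2
  have hu : ∀ x : X, IsUnit (zn (φ (FreeMoufang.of x))) := fun x => by
    have := hIV (FreeMoufang.of x)
    exact zn_unit_of_IV _
  let ε := evU (fun x : X => φ (FreeMoufang.of x)) hu
  have key : φ w = zmap ε (FreeMoufang.lift (ugU (X := X)) w).1 := by
    refine hom_unique_alt (f := φ) (g := fun w => zmap ε (FreeMoufang.lift (ugU (X := X)) w).1)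
      hφ.1 hφ.2 ?_ ?_ ?_ w
    · change zmap ε (1 : Zorn (UR X)) = 1
      rw [map_one]
    · intro a b
      rw [FreeMoufang.lift_mul]
      change zmap ε ((FreeMoufang.lift (ugU (X := X)) a).1 *
        (FreeMoufang.lift (ugU (X := X)) b).1) = _
      rw [map_mul]
    · intro x
      exact (evU_ug (fun x : X => φ (FreeMoufang.of x)) hu x).symm
  rw [key, generic_eq_one hX hw, map_one]

/-- a nuclear word is trivial in all groups -/
theorem group_eq_one {X : Type u} (hX : 3 ≤ Cardinal.mk X) {w : FreeMoufang X}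
    (hw : IsOctonionNuclear w) {G : Type v} [Group G] {φ : FreeMoufang X → G}
    (hφ : IsMulHom φ) : φ w = 1 := by
  have key : φ w = FreeGroup.lift (fun x => φ (FreeMoufang.of x)) (PiX w) := by
    refine hom_unique (f := φ) (g := fun w => FreeGroup.lift (fun x => φ (FreeMoufang.of x))
      (PiX w)) hφ.1 hφ.2 ?_ ?_ ?_ w
    · rw [PiX_one, map_one]
    · intro a b
      rw [PiX_mul, map_mul]
    · intro x
      rw [PiX_of, FreeGroup.lift_apply_of]
  rw [key, PiX_eq_one hX hw, map_one]

end Pool.Agent.Lib.MP_1b6260_al.AR
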